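import Mathlib

/-! Statements of the modules for `N_2(H) ≥ H ^ (2/3 - ε)` (MP_798d7d_nt). -/

set_option autoImplicit false

namespace Pool.Helper16.NR

/-- the curve `y² = x³ + A x + B` over `ℚ` -/
def cur (A B : ℤ) : WeierstrassCurve ℚ := ⟨0, 0, 0, (A : ℚ), (B : ℚ)⟩

/-- the pairs counted by `N_2(H)` -/
def NS (H : ℝ) : Set (ℤ × ℤ) :=
  {p | 4 * p.1 ^ 3 + 27 * p.2 ^ 2 ≠ 0 ∧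
    (∀ q : ℕ, q.Prime → ¬ ((q : ℤ) ^ 4 ∣ p.1 ∧ (q : ℤ) ^ 6 ∣ p.2)) ∧
    (((max (4 * |p.1| ^ 3) (27 * p.2 ^ 2) : ℤ) : ℝ) ≤ H) ∧
    (2 : Cardinal) ≤ Module.rank ℤ ((cur p.1 p.2).toAffine).Point}

/-- the cubic modulo `p` for the points `(a, r)`, `(b, r)` -/
def fp {p : ℕ} (a b r e : ZMod p) : ZMod p :=
  e ^ 3 - (a ^ 2 + a * b + b ^ 2) * e + (r ^ 2 + a * b * (a + b))

/-- residue condition at `5`: no root -/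
def R5 (a b r : ZMod 5) : Prop := a ≠ b ∧ ∀ e : ZMod 5, fp a b r e ≠ 0

/-- residue condition at `11` -/
def R11 (a b r : ZMod 11) : Prop := a ≠ b ∧
  4 * (-(a ^ 2 + a * b + b ^ 2)) ^ 3 + 27 * (r ^ 2 + a * b * (a + b)) ^ 2 ≠ 0 ∧
  (∃ e, fp a b r e = 0 ∧ ¬ IsSquare (a - e)) ∧
  (∃ e, fp a b r e = 0 ∧ ¬ IsSquare (b - e)) ∧
  (∃ e, fp a b r e = 0 ∧ ¬ IsSquare ((a - e) * (b - e)))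

/-- RES: residues exist. -/
def ST_RES : Prop := (∀ r : ZMod 5, r ≠ 0 → ∃ a b : ZMod 5, R5 a b r) ∧
  (∀ r : ZMod 11, r ≠ 0 → ∃ a b : ZMod 11, R11 a b r)

/-- CERT: a point which is not divisible by 2 modulo `p` is not divisible by 2. -/
def ST_CERT : Prop := ∀ (p : ℕ) [Fact p.Prime], p ≠ 2 → ∀ (A B : ℤ) (e : ZMod p),
  (4 * (A : ZMod p) ^ 3 + 27 * (B : ZMod p) ^ 2 ≠ 0) →
  e ^ 3 + (A : ZMod p) * e + (B : ZMod p) = 0 →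
  ∀ (x y : ℚ) (h : ((cur A B).toAffine).Nonsingular x y) (m w : ℤ), (w : ZMod p) ≠ 0 →
  x = (m : ℚ) / (w : ℚ) → ¬ IsSquare ((m : ZMod p) / (w : ZMod p) - e) →
  ∀ Q : ((cur A B).toAffine).Point, WeierstrassCurve.Affine.Point.some x y h ≠ Q + Q

/-- TOR: no rational 2-torsion if there is no root modulo `p`. -/
def ST_TOR : Prop := ∀ (p : ℕ) [Fact p.Prime] (A B : ℤ),
  (∀ e : ZMod p, e ^ 3 + (A : ZMod p) * e + (B : ZMod p) ≠ 0) →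
  ∀ Q : ((cur A B).toAffine).Point, Q + Q = 0 → Q = 0

/-- RK2: two points. -/
def ST_RK2 : Prop := ∀ (M : Type) [AddCommGroup M] (P Q : M), (∀ R : M, R + R = 0 → R = 0) →
  (∀ R : M, P ≠ R + R) → (∀ R : M, Q ≠ R + R) → (∀ R : M, P + Q ≠ R + R) →
  (2 : Cardinal) ≤ Module.rank ℤ M

/-- RK: two points with good residues are independent. -/
def ST_RK : Prop := ∀ (A B u x1 y1 x2 y2 : ℤ), y1 ^ 2 = x1 ^ 3 + A * u ^ 4 * x1 + B * u ^ 6 →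
  y2 ^ 2 = x2 ^ 3 + A * u ^ 4 * x2 + B * u ^ 6 → 4 * A ^ 3 + 27 * B ^ 2 ≠ 0 →
  (y1 : ZMod 5) = (y2 : ZMod 5) → R5 (x1 : ZMod 5) (x2 : ZMod 5) (y1 : ZMod 5) →
  (y1 : ZMod 11) = (y2 : ZMod 11) → (y1 : ZMod 11) ≠ 0 →
  R11 (x1 : ZMod 11) (x2 : ZMod 11) (y1 : ZMod 11) →
  (2 : Cardinal) ≤ Module.rank ℤ ((cur A B).toAffine).Point

/-- SQ: square roots modulo two numbers in a window. -/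
def ST_SQ : Prop := ∀ (b c : ℕ), 0 < b → 0 < c → ∀ (v w : ℤ), IsCoprime v (b : ℤ) →
  IsCoprime w (c : ℤ) → ∀ (S : Finset ℤ),
  (∀ y ∈ S, (b : ℤ) ∣ y ^ 2 - v ^ 2 ∧ (c : ℤ) ∣ y ^ 2 - w ^ 2) →
  ∀ L : ℝ, 0 ≤ L → (∀ y ∈ S, ∀ z ∈ S, |(y : ℝ) - (z : ℝ)| ≤ L) →
  (S.card : ℝ) ≤ (b.divisors.card : ℝ) * (c.divisors.card : ℝ) *
    (2 * L / (Nat.lcm b c : ℝ) + 1)

/-- the hypotheses on the set of primes -/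
structure PH (X Y : ℕ) (P : Finset ℤ) : Prop where
  hX : 2 ≤ X
  hXY : 4 * X ≤ Y
  pr : ∀ y ∈ P, Prime y
  lo : ∀ y ∈ P, (Y : ℤ) < 2 * y
  hi : ∀ y ∈ P, y ≤ (Y : ℤ)

/-- three points on one curve -/
def Tri (X : ℕ) (P : Finset ℤ) (M0 : ℝ) : Set (Fin 3 → ℤ × ℤ) :=
  {q | (∀ i, 0 < (q i).1 ∧ (q i).1 ≤ (X : ℤ) ∧ (q i).2 ∈ P) ∧
    (∀ i j, i ≠ j → (q i).1 ≠ (q j).1) ∧ (X : ℤ) < 2 * ((q 0).1 - (q 1).1) ∧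
    ∃ A B : ℤ, |(A : ℝ)| ≤ M0 ∧ ∀ i, (q i).2 ^ 2 = (q i).1 ^ 3 + A * (q i).1 + B}

/-- TRI: the number of triples. -/
def ST_TRI : Prop := ∀ (X Y : ℕ) (P : Finset ℤ), PH X Y P → ∀ (M0 D : ℝ), 0 ≤ M0 → 1 ≤ D →
  (∀ n : ℕ, 1 ≤ n → n ≤ 2 * X → (n.divisors.card : ℝ) ≤ D) →
  (Tri X P M0).Finite ∧
  ((Tri X P M0).ncard : ℝ) ≤ X * Y * (D ^ 3 * (4 * (M0 + 3 * X ^ 2) / Y + 1) *
    (16 * D * (M0 + 3 * X ^ 2) / Y + 2 * X))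

/-- the pairs -/
def GP (I1 I2 P : Finset ℤ) : Finset (ℤ × ℤ × ℤ × ℤ) :=
  (I1 ×ˢ I2 ×ˢ P ×ˢ P).filter (fun q => (q.1 - q.2.1) ∣ (q.2.2.1 ^ 2 - q.2.2.2 ^ 2))

/-- LOW: lower bound for the number of pairs. -/
def ST_LOW : Prop := ∀ (X : ℕ) (I1 I2 P : Finset ℤ), 0 < X →
  (∀ x ∈ I1, ∀ y ∈ I2, 0 < x - y ∧ x - y ≤ (X : ℤ)) →
  (I1.card : ℝ) * I2.card * (P.card : ℝ) ^ 2 / X ≤ ((GP I1 I2 P).card : ℝ)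

/-- SV: pairs for which `u ^ 4` divides `y₁² - x₁³`. -/
def ST_SV : Prop := ∀ (X Y : ℕ) (P I1 I2 : Finset ℤ), PH X Y P →
  (∀ x ∈ I1, ∀ y ∈ I2, (X : ℤ) < 2 * (x - y) ∧ x - y ≤ (X : ℤ)) → ∀ (u : ℕ) (D : ℝ), 0 < u →
  2 * u < Y → 1 ≤ D → (∀ n : ℕ, 1 ≤ n → n ≤ X → (n.divisors.card : ℝ) ≤ D) →
  (((GP I1 I2 P).filter (fun q => (u : ℤ) ^ 4 ∣ q.2.2.1 ^ 2 - q.1 ^ 3)).card : ℝ) ≤
    I1.card * I2.card * (((u ^ 4).divisors.card : ℝ) * (2 * Y / (u : ℝ) ^ 4 + 1)) *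
      (D * (4 * Y / X + 1))

/-- PR: primes in a fixed class in a dyadic interval. -/
def ST_PR : Prop := ∀ ε : ℝ, 0 < ε → ∃ Z0 : ℝ, ∀ Z : ℝ, Z0 ≤ Z → ∃ (Y : ℕ) (P : Finset ℤ)
  (r5 : ZMod 5) (r11 : ZMod 11), r5 ≠ 0 ∧ r11 ≠ 0 ∧ (Y : ℝ) ≤ Z ∧ Z ^ (1 - ε) ≤ (Y : ℝ) ∧
  (∀ y ∈ P, Prime y ∧ (Y : ℤ) < 2 * y ∧ y ≤ (Y : ℤ) ∧ (y : ZMod 5) = r5 ∧ (y : ZMod 11) = r11) ∧
  Z ^ (1 - ε) ≤ (P.card : ℝ)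

/-- IV: many integers with given residues modulo `5` and `11` in an interval. -/
def ST_IV : Prop := ∀ (a5 : ZMod 5) (a11 : ZMod 11) (s t : ℤ), s ≤ t →
  ((t : ℝ) - s) / 55 - 1 ≤
    (((Finset.Ioc s t).filter (fun x : ℤ => (x : ZMod 5) = a5 ∧ (x : ZMod 11) = a11)).card : ℝ)

/-- coefficient `A` -/
def cA (q : ℤ × ℤ × ℤ × ℤ) : ℤ :=
  (q.2.2.1 ^ 2 - q.2.2.2 ^ 2) / (q.1 - q.2.1) - (q.1 ^ 2 + q.1 * q.2.1 + q.2.1 ^ 2)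

/-- coefficient `B` -/
def cB (q : ℤ × ℤ × ℤ × ℤ) : ℤ := q.2.2.1 ^ 2 - q.1 ^ 3 - cA q * q.1

/-- CNT: from pairs to curves. -/
def ST_CNT : Prop := ∀ (X Y : ℕ) (P I1 I2 : Finset ℤ), PH X Y P →
  (∀ x ∈ I1, 0 < x ∧ x ≤ (X : ℤ)) → (∀ x ∈ I2, 0 < x ∧ x ≤ (X : ℤ)) →
  (∀ x ∈ I1, ∀ y ∈ I2, (X : ℤ) < 2 * (x - y) ∧ x - y ≤ (X : ℤ)) →
  ∀ (M0 : ℝ) (K z U : ℕ), 1 ≤ K → 1 ≤ z → (∀ q ∈ GP I1 I2 P, |(cA q : ℝ)| ≤ M0) →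
  (∀ q ∈ GP I1 I2 P, ((cB q).natAbs : ℝ) ≤ (U : ℝ) ^ 6) → 2 * U < Y →
  (Tri X P M0).Finite →
  ∃ N : Finset (ℤ × ℤ),
    (∀ p ∈ N, (∀ q : ℕ, q.Prime → ¬ ((q : ℤ) ^ 4 ∣ p.1 ∧ (q : ℤ) ^ 6 ∣ p.2)) ∧
      ∃ u : ℕ, 1 ≤ u ∧ ∃ q ∈ GP I1 I2 P, cA q = p.1 * u ^ 4 ∧ cB q = p.2 * u ^ 6) ∧
    ((GP I1 I2 P).card : ℝ) ≤ (z : ℝ) * (K : ℝ) ^ 2 * N.card +
      (2 * (GP I1 I2 P).card + (Tri X P M0).ncard) / K +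
      ∑ u ∈ Finset.Ioc z U, (((GP I1 I2 P).filter
        (fun q => (u : ℤ) ^ 4 ∣ q.2.2.1 ^ 2 - q.1 ^ 3)).card : ℝ)

/-- FIN: the theorem. -/
def ST_FIN : Prop := ∀ ε : ℝ, 0 < ε → ∃ H0 : ℝ, ∀ H : ℝ, H0 ≤ H →
  H ^ ((2 : ℝ) / 3 - ε) ≤ ((NS H).ncard : ℝ)

end Pool.Helper16.NR
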