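import Mathlib
import Pool.Agent.Helper16.NR.Stmts

/-! A certificate for not being divisible by two. -/

set_option autoImplicit false

namespace Pool.Helper16.NR

theorem cert_eq (A B : ℤ) (x y : ℚ) (h : ((cur A B).toAffine).Nonsingular x y) :
    y ^ 2 = x ^ 3 + A * x + B := by
  have h1 := h.1
  rw [WeierstrassCurve.Affine.equation_iff] at h1
  simp only [cur, zero_mul, add_zero] at h1
  exact h1

theorem cert_dbl (A B : ℤ) (s v : ℚ) (hQ : ((cur A B).toAffine).Nonsingular s v) (x y : ℚ)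
    (h : ((cur A B).toAffine).Nonsingular x y)
    (heq : WeierstrassCurve.Affine.Point.some x y h =
      WeierstrassCurve.Affine.Point.some s v hQ + WeierstrassCurve.Affine.Point.some s v hQ) :
    v ≠ 0 ∧ x * (4 * v ^ 2) = s ^ 4 - 2 * A * s ^ 2 - 8 * B * s + A ^ 2 := by
  have hneg : ((cur A B).toAffine).negY s v = -v := by
    simp [WeierstrassCurve.Affine.negY, cur]
  have hv : v ≠ 0 := by
    intro hv
    rw [WeierstrassCurve.Affine.Point.add_self_of_Y_eq (by rw [hneg, hv, neg_zero])] at heq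
    exact absurd heq (by simp)
  refine ⟨hv, ?_⟩
  have hne : v ≠ ((cur A B).toAffine).negY s v := by
    rw [hneg]
    intro h1
    apply hv
    linarith
  rw [WeierstrassCurve.Affine.Point.add_self_of_Y_ne hne,
    WeierstrassCurve.Affine.Point.some.injEq] at heq
  have hx := heq.1
  rw [WeierstrassCurve.Affine.slope_of_Y_ne rfl hne, hneg] at hx
  have hE := cert_eq A B s v hQ
  rw [hx]
  simp only [WeierstrassCurve.Affine.addX, cur]
  field_simp
  ring_nf
  have hA : (A : ℚ) = A := rfl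
  have e1 : v ^ 2 = s ^ 3 + A * s + B := hE
  rw [e1]
  ring

/-- the identity for the doubled point in integers -/
theorem cert_int (A B : ℤ) (s v x : ℚ) (m w : ℤ) (hw : (w : ℚ) ≠ 0) (hx : x = (m : ℚ) / (w : ℚ))
    (hE : v ^ 2 = s ^ 3 + A * s + B)
    (hd : x * (4 * v ^ 2) = s ^ 4 - 2 * A * s ^ 2 - 8 * B * s + A ^ 2) :
    w * (s.num ^ 4 - 2 * A * s.num ^ 2 * s.den ^ 2 - 8 * B * s.num * s.den ^ 3 + A ^ 2 * s.den ^ 4) =
      4 * m * (s.den * (s.num ^ 3 + A * s.num * s.den ^ 2 + B * s.den ^ 3)) := by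
  have hb : (s.den : ℚ) ≠ 0 := by exact_mod_cast s.den_nz
  have hs : s = (s.num : ℚ) / (s.den : ℚ) := (Rat.num_div_den s).symm
  have h1 : (w : ℚ) * (s ^ 4 - 2 * A * s ^ 2 - 8 * B * s + A ^ 2) =
      m * (4 * (s ^ 3 + A * s + B)) := by
    rw [← hd, hx, hE]
    field_simp
  have h2 : ((w * (s.num ^ 4 - 2 * A * s.num ^ 2 * s.den ^ 2 - 8 * B * s.num * s.den ^ 3 +
      A ^ 2 * s.den ^ 4) : ℤ) : ℚ) =
      ((4 * m * (s.den * (s.num ^ 3 + A * s.num * s.den ^ 2 + B * s.den ^ 3)) : ℤ) : ℚ) := by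
    push_cast
    generalize (s.num : ℚ) = a at *
    generalize (s.den : ℚ) = b at *
    subst hs
    field_simp at h1
    linear_combination h1
  exact_mod_cast h2

theorem cert_sq (A B : ℤ) (s v : ℚ) (hE : v ^ 2 = s ^ 3 + A * s + B) :
    ∃ c : ℤ, c ^ 2 = s.den * (s.num ^ 3 + A * s.num * s.den ^ 2 + B * s.den ^ 3) := by
  have hb : (s.den : ℚ) ≠ 0 := by exact_mod_cast s.den_nz
  have hs : s = (s.num : ℚ) / (s.den : ℚ) := (Rat.num_div_den s).symm
  have h2 : ((s.den : ℚ) ^ 2 * v) ^ 2 =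
      (((s.den * (s.num ^ 3 + A * s.num * s.den ^ 2 + B * s.den ^ 3) : ℤ)) : ℚ) := by
    rw [mul_pow, hE]
    push_cast
    generalize (s.num : ℚ) = a at *
    generalize (s.den : ℚ) = b at *
    subst hs
    field_simp
  have h3 : IsIntegral ℤ (((s.den : ℚ) ^ 2 * v) ^ 2) := by
    rw [h2]
    exact isIntegral_algebraMap
  obtain ⟨c, hc⟩ := IsIntegrallyClosed.exists_algebraMap_eq_of_isIntegral_pow (R := ℤ) (K := ℚ)
    (n := 2) (by norm_num) h3
  refine ⟨c, ?_⟩
  have h4 : ((c ^ 2 : ℤ) : ℚ) =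
      (((s.den * (s.num ^ 3 + A * s.num * s.den ^ 2 + B * s.den ^ 3) : ℤ)) : ℚ) := by
    rw [← h2, ← hc]
    push_cast
    rfl
  exact_mod_cast h4

/-- the computation modulo `p` -/
theorem cert_mod (p : ℕ) [Fact p.Prime] (hp : p ≠ 2) (A B e a b m w c : ZMod p)
    (hD : 4 * A ^ 3 + 27 * B ^ 2 ≠ 0) (he : e ^ 3 + A * e + B = 0) (hw : w ≠ 0)
    (hab : ¬ (a = 0 ∧ b = 0))
    (h1 : w * (a ^ 4 - 2 * A * a ^ 2 * b ^ 2 - 8 * B * a * b ^ 3 + A ^ 2 * b ^ 4) =
      4 * m * (b * (a ^ 3 + A * a * b ^ 2 + B * b ^ 3)))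
    (h2 : c ^ 2 = b * (a ^ 3 + A * a * b ^ 2 + B * b ^ 3)) : IsSquare (m / w - e) := by
  have h2' : (2 : ZMod p) ≠ 0 := by
    intro h
    have h3 : ((2 : ℕ) : ZMod p) = 0 := by exact_mod_cast h
    rw [ZMod.natCast_eq_zero_iff] at h3
    exact hp ((Nat.prime_dvd_prime_iff_eq (Fact.out) Nat.prime_two).1 h3)
  have hb : b ≠ 0 := by
    intro hb
    rw [hb] at h1
    have h3 : w * a ^ 4 = 0 := by linear_combination h1
    rcases mul_eq_zero.1 h3 with h4 | h4
    · exact hw h4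
    · exact hab ⟨pow_eq_zero_iff (by norm_num) |>.1 h4, hb⟩
  set t := a / b with ht
  have hat : a = t * b := by rw [ht]; field_simp
  have hf : c ^ 2 = b ^ 4 * (t ^ 3 + A * t + B) := by rw [h2, hat]; ring
  have hN : w * (t ^ 4 - 2 * A * t ^ 2 - 8 * B * t + A ^ 2) = 4 * m * (t ^ 3 + A * t + B) := by
    rw [hat] at h1
    have h3 : b ^ 4 * (w * (t ^ 4 - 2 * A * t ^ 2 - 8 * B * t + A ^ 2)) =
      b ^ 4 * (4 * m * (t ^ 3 + A * t + B)) := by linear_combination h1
    exact mul_left_cancel₀ (pow_ne_zero 4 hb) h3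
  have hf0 : t ^ 3 + A * t + B ≠ 0 := by
    intro h0
    rw [h0, mul_zero] at hN
    have h3 : t ^ 4 - 2 * A * t ^ 2 - 8 * B * t + A ^ 2 = 0 := by
      rcases mul_eq_zero.1 hN with h4 | h4
      · exact absurd h4 hw
      · exact h4
    apply hD
    linear_combination (3 * t ^ 2 + 4 * A) * h3 - (3 * t ^ 3 - 5 * A * t - 27 * B) * h0
  have hc : c ≠ 0 := by
    intro hc
    rw [hc] at hf
    have : b ^ 4 * (t ^ 3 + A * t + B) = 0 := by rw [← hf]; ring
    exact (mul_ne_zero (pow_ne_zero 4 hb) hf0) this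
  refine ⟨((t - e) ^ 2 - (3 * e ^ 2 + A)) * b ^ 2 / (2 * c), ?_⟩
  have hkey : (m / w - e) * (4 * (t ^ 3 + A * t + B)) = ((t - e) ^ 2 - (3 * e ^ 2 + A)) ^ 2 := by
    have h5 : m / w * (4 * (t ^ 3 + A * t + B)) =
        t ^ 4 - 2 * A * t ^ 2 - 8 * B * t + A ^ 2 := by
      field_simp
      linear_combination -hN
    rw [sub_mul, h5]
    linear_combination (-(8 * t) - 4 * e) * he
  have h6 : (m / w - e) * (2 * c) ^ 2 = (((t - e) ^ 2 - (3 * e ^ 2 + A)) * b ^ 2) ^ 2 := by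
    have : (2 * c) ^ 2 = 4 * c ^ 2 := by ring
    rw [this, hf]
    linear_combination b ^ 4 * hkey
  have h7 : (2 * c) ≠ 0 := mul_ne_zero h2' hc
  field_simp
  field_simp at h6
  linear_combination h6

theorem st_CERT : ST_CERT := by
  intro p _ hp A B e hD he x y h m w hw hx hsq Q hQ
  rcases Q with _ | ⟨s, v, hs⟩
  · have : (WeierstrassCurve.Affine.Point.some x y h) = 0 := by
      rw [hQ]
      exact add_zero _
    exact absurd this (by simp)
  · obtain ⟨hv, hd⟩ := cert_dbl A B s v hs x y h hQ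
    have hE := cert_eq A B s v hs
    have hw' : (w : ℚ) ≠ 0 := by
      intro h0
      apply hw
      have : w = 0 := by exact_mod_cast h0
      rw [this]
      simp
    have h1 := cert_int A B s v x m w hw' hx hE hd
    obtain ⟨c, h2⟩ := cert_sq A B s v hE
    apply hsq
    refine cert_mod p hp (A : ZMod p) (B : ZMod p) e (s.num : ZMod p) ((s.den : ℤ) : ZMod p) m w c hD he
      hw ?_ ?_ ?_
    · rintro ⟨ha, hb⟩
      rw [ZMod.intCast_zmod_eq_zero_iff_dvd] at ha hb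
      have hb' : p ∣ s.den := by exact_mod_cast hb
      have ha' : p ∣ s.num.natAbs := Int.natCast_dvd.1 ha
      have := Nat.dvd_gcd ha' hb'
      rw [s.reduced] at this
      exact (Fact.out : p.Prime).one_lt.ne' (Nat.dvd_one.1 this)
    · have := congrArg (fun n : ℤ => (n : ZMod p)) h1
      push_cast at this ⊢
      exact this
    · have := congrArg (fun n : ℤ => (n : ZMod p)) h2
      push_cast at this ⊢
      exact this

end Pool.Helper16.NR
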