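import Mathlib
import Pool.Agent.Helper16.NR.Stmts

/-! Statements of the modules for `N_2(H) ≥ c H ^ (2/3)` (argument of helper52). -/

set_option autoImplicit false

namespace Pool.Helper16.NR

/-- parameters: `(k₁, k₂, j, l)` -/
def TT (m : ℕ) : Finset (ℕ × ℕ × ℕ × ℕ) :=
  (Finset.range (m ^ 2)) ×ˢ (Finset.range (m ^ 2)) ×ˢ (Finset.Ico m (2 * m)) ×ˢ
    (Finset.range (m ^ 3))

/-- first abscissa -/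
def tx1 (t : ℕ × ℕ × ℕ × ℕ) : ℤ := 55 * t.1 + 25

/-- second abscissa -/
def tx2 (t : ℕ × ℕ × ℕ × ℕ) : ℤ := 55 * t.2.1 + 42

/-- slope -/
def tu (t : ℕ × ℕ × ℕ × ℕ) : ℤ := 55 * t.2.2.1

/-- intercept -/
def tv (t : ℕ × ℕ × ℕ × ℕ) : ℤ := 55 * t.2.2.2 + 1

/-- third abscissa -/
def tx3 (t : ℕ × ℕ × ℕ × ℕ) : ℤ := tu t ^ 2 - tx1 t - tx2 t

/-- coefficient `A` -/
def tA (t : ℕ × ℕ × ℕ × ℕ) : ℤ :=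
  2 * tu t * tv t + (tx1 t * tx2 t + tx1 t * tx3 t + tx2 t * tx3 t)

/-- coefficient `B` -/
def tB (t : ℕ × ℕ × ℕ × ℕ) : ℤ := tv t ^ 2 - tx1 t * tx2 t * tx3 t

/-- tuples whose curve has a further integral point of small abscissa -/
def Bad (m : ℕ) (t : ℕ × ℕ × ℕ × ℕ) : Prop := ∃ x y : ℤ, |x| ≤ 20000 * (m : ℤ) ^ 2 ∧
  x ≠ tx1 t ∧ x ≠ tx2 t ∧ x ≠ tx3 t ∧ y ^ 2 = x ^ 3 + tA t * x + tB t

open Classical in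
/-- BAD: few tuples are bad. -/
def ST_BAD : Prop := ∃ C : ℝ, ∀ m : ℕ, 1 ≤ m →
  (((TT m).filter (Bad m)).card : ℝ) ≤ C * (m : ℝ) ^ (15 / 2 : ℝ)

open Classical in
/-- FIB: a curve comes from at most 27 good tuples. -/
def ST_FIB : Prop := ∀ (m : ℕ) (A B : ℤ), 1 ≤ m →
  ((TT m).filter (fun t => ¬ Bad m t ∧ tA t = A ∧ tB t = B)).card ≤ 27

/-- GCD: the sum of greatest common divisors. -/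
def ST_GCD : Prop := ∀ (m q : ℕ), 1 ≤ m → 1 ≤ q →
  ∑ j ∈ Finset.Ico m (2 * m), Nat.gcd (110 * 55 * j) q ≤ 110 * 55 * (2 * m) * q.divisors.card

/-- WSV: tuples for which `w ^ 4` divides `A`. -/
def ST_WSV : Prop := ∀ (m w : ℕ), 1 ≤ m → 1 ≤ w →
  (((TT m).filter (fun t => (w : ℤ) ^ 4 ∣ tA t)).card : ℝ) ≤
    (m : ℝ) ^ 4 * ((m : ℝ) ^ 3 / (w : ℝ) ^ 4 + 1) *
      (110 * 55 * (2 * m) * ((w ^ 4).divisors.card : ℝ))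

/-- SZ: sizes. -/
def ST_SZ : Prop := ∃ C : ℕ, 1 ≤ C ∧ ∀ m : ℕ, 1 ≤ m → ∀ t ∈ TT m,
  4 * |tA t| ^ 3 ≤ (C : ℤ) * (m : ℤ) ^ 12 ∧ 27 * tB t ^ 2 ≤ (C : ℤ) * (m : ℤ) ^ 12 ∧
  |tB t| ≤ (C : ℤ) * (m : ℤ) ^ 6 ∧ tB t ≠ 0 ∧ 4 * tA t ^ 3 + 27 * tB t ^ 2 ≠ 0

/-- TRK: the rank of the reduced curve is at least two. -/
def ST_TRK : Prop := ∀ (m : ℕ), ∀ t ∈ TT m, ∀ A B w : ℤ, tA t = A * w ^ 4 → tB t = B * w ^ 6 →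
  (2 : Cardinal) ≤ Module.rank ℤ ((cur A B).toAffine).Point

open Classical in
/-- RED: most tuples reduce by a bounded factor. -/
def ST_RED : Prop := ∃ W : ℕ, 1 ≤ W ∧ ∃ m0 : ℕ, ∀ m : ℕ, m0 ≤ m →
  (((TT m).filter (fun t => ∃ w : ℕ, W < w ∧ (w : ℤ) ^ 4 ∣ tA t ∧ (w : ℤ) ^ 6 ∣ tB t)).card : ℝ) ≤
    (m : ℝ) ^ 8 / 4

/-- CNT2: the count for the special heights. -/
def ST_CNT2 : Prop := ∃ (c : ℝ) (C m0 : ℕ), 0 < c ∧ 1 ≤ C ∧ ∀ m : ℕ, m0 ≤ m →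
  c * (m : ℝ) ^ 8 ≤ ((NS ((C : ℝ) * (m : ℝ) ^ 12)).ncard : ℝ)

/-- FIN2: the theorem. -/
def ST_FIN2 : Prop := ∃ c : ℝ, 0 < c ∧ ∃ H0 : ℝ, ∀ H : ℝ, H0 ≤ H →
  c * H ^ ((2 : ℝ) / 3) ≤ ((NS H).ncard : ℝ)

end Pool.Helper16.NR
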