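import Mathlib
import Pool.Agent.Helper16.NR.Stmts2

/-! Assembly: counting curves. -/

set_option autoImplicit false

namespace Pool.Helper16.NR

theorem cnt2_fin (H : ℝ) : (NS H).Finite := by
  apply Set.Finite.subset (Set.Finite.prod (Set.finite_Icc (-⌈|H|⌉) ⌈|H|⌉)
    (Set.finite_Icc (-⌈|H|⌉) ⌈|H|⌉))
  rintro ⟨a, b⟩ ⟨_, _, h3, _⟩
  have hH : H ≤ (⌈|H|⌉ : ℝ) := (le_abs_self H).trans (Int.le_ceil _)
  have h4 : max (4 * |a| ^ 3) (27 * b ^ 2) ≤ ⌈|H|⌉ := by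
    have : (((max (4 * |a| ^ 3) (27 * b ^ 2) : ℤ)) : ℝ) ≤ ((⌈|H|⌉ : ℤ) : ℝ) := h3.trans hH
    exact_mod_cast this
  have h5 := (le_max_left _ _).trans h4
  have h6 := (le_max_right _ _).trans h4
  have ha0 : 0 ≤ |a| := abs_nonneg a
  have h7 : |a| ≤ 4 * |a| ^ 3 := by
    rcases eq_or_lt_of_le ha0 with h | h
    · rw [← h]; norm_num
    · have h1 : 1 ≤ |a| := h
      nlinarith [sq_nonneg (|a| - 1), mul_nonneg ha0 (sq_nonneg (|a| - 1)), sq_nonneg |a|]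
  have h8 : |b| ≤ 27 * b ^ 2 := by
    rw [← sq_abs b]
    rcases eq_or_lt_of_le (abs_nonneg b) with h | h
    · rw [← h]; norm_num
    · have h1 : 1 ≤ |b| := h
      nlinarith
  rw [Set.mem_prod, Set.mem_Icc, Set.mem_Icc]
  exact ⟨abs_le.1 (h7.trans h5), abs_le.1 (h8.trans h6)⟩

theorem cnt2_card (m : ℕ) : (TT m).card = m ^ 8 := by
  unfold TT
  rw [Finset.card_product, Finset.card_product, Finset.card_product, Finset.card_range,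
    Nat.card_Ico, Finset.card_range]
  have : 2 * m - m = m := by omega
  rw [this]
  ring

open Classical in
theorem cnt2_good (hBAD : ST_BAD) (hRED : ST_RED) : ∃ W : ℕ, 1 ≤ W ∧ ∃ m0 : ℕ, ∀ m : ℕ, m0 ≤ m →
    (m : ℝ) ^ 8 / 2 ≤ (((TT m).filter (fun t => ¬ Bad m t ∧
      ¬ ∃ w : ℕ, W < w ∧ (w : ℤ) ^ 4 ∣ tA t ∧ (w : ℤ) ^ 6 ∣ tB t)).card : ℝ) := by
  obtain ⟨Cb, hb⟩ := hBAD
  obtain ⟨W, hW, m0, hr⟩ := hRED
  refine ⟨W, hW, max m0 (max 1 (⌈(4 * |Cb|) ^ 2⌉₊)), ?_⟩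
  intro m hm
  have hm0 : m0 ≤ m := (le_max_left _ _).trans hm
  have hm1 : 1 ≤ m := (le_max_left _ _).trans ((le_max_right _ _).trans hm)
  have hm2 : ⌈(4 * |Cb|) ^ 2⌉₊ ≤ m := (le_max_right _ _).trans ((le_max_right _ _).trans hm)
  have hmr : (4 * |Cb|) ^ 2 ≤ (m : ℝ) := (Nat.le_ceil _).trans (by exact_mod_cast hm2)
  have hmpos : (0 : ℝ) < m := by exact_mod_cast hm1
  have h1 := hb m hm1
  have h2 := hr m hm0
  have h3 : (m : ℝ) ^ (15 / 2 : ℝ) * Real.sqrt m = (m : ℝ) ^ 8 := by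
    rw [Real.sqrt_eq_rpow, ← Real.rpow_add hmpos, ← Real.rpow_natCast]
    norm_num
  have h4 : 4 * |Cb| ≤ Real.sqrt m := by
    apply Real.le_sqrt_of_sq_le
    exact hmr
  have h5 : Cb * (m : ℝ) ^ (15 / 2 : ℝ) ≤ (m : ℝ) ^ 8 / 4 := by
    have h6 : (0 : ℝ) ≤ (m : ℝ) ^ (15 / 2 : ℝ) := Real.rpow_nonneg hmpos.le _
    have h7 : Cb ≤ |Cb| := le_abs_self Cb
    rw [← h3]
    nlinarith [mul_le_mul_of_nonneg_left h4 h6, mul_le_mul_of_nonneg_right h7 h6]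
  have h8 : (TT m).card ≤ ((TT m).filter (fun t => ¬ Bad m t ∧
      ¬ ∃ w : ℕ, W < w ∧ (w : ℤ) ^ 4 ∣ tA t ∧ (w : ℤ) ^ 6 ∣ tB t)).card +
      (((TT m).filter (Bad m)).card +
      ((TT m).filter (fun t => ∃ w : ℕ, W < w ∧ (w : ℤ) ^ 4 ∣ tA t ∧ (w : ℤ) ^ 6 ∣ tB t)).card) := by
    refine le_trans (Finset.card_le_card ?_) ((Finset.card_union_le _ _).trans
      (Nat.add_le_add_left (Finset.card_union_le _ _) _))
    intro t ht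
    simp only [Finset.mem_union, Finset.mem_filter]
    by_cases hB : Bad m t
    · exact Or.inr (Or.inl ⟨ht, hB⟩)
    · by_cases hw : ∃ w : ℕ, W < w ∧ (w : ℤ) ^ 4 ∣ tA t ∧ (w : ℤ) ^ 6 ∣ tB t
      · exact Or.inr (Or.inr ⟨ht, hw⟩)
      · exact Or.inl ⟨ht, hB, hw⟩
  have h9 : ((TT m).card : ℝ) ≤ (((TT m).filter (fun t => ¬ Bad m t ∧
      ¬ ∃ w : ℕ, W < w ∧ (w : ℤ) ^ 4 ∣ tA t ∧ (w : ℤ) ^ 6 ∣ tB t)).card : ℝ) +
      ((((TT m).filter (Bad m)).card : ℝ) +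
      (((TT m).filter (fun t => ∃ w : ℕ, W < w ∧ (w : ℤ) ^ 4 ∣ tA t ∧ (w : ℤ) ^ 6 ∣ tB t)).card : ℝ)) := by
    exact_mod_cast h8
  rw [cnt2_card] at h9
  push_cast at h9
  linarith

/-- the reducing factor -/
noncomputable def cnt2_w (W : ℕ) (t : ℕ × ℕ × ℕ × ℕ) : ℕ :=
  open Classical in
  Nat.findGreatest (fun w => (w : ℤ) ^ 4 ∣ tA t ∧ (w : ℤ) ^ 6 ∣ tB t) W

theorem cnt2_w1 (W : ℕ) (hW : 1 ≤ W) (t : ℕ × ℕ × ℕ × ℕ) : 1 ≤ cnt2_w W t := by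
  classical
  unfold cnt2_w
  exact Nat.le_findGreatest hW (by simp)

theorem cnt2_wle (W : ℕ) (t : ℕ × ℕ × ℕ × ℕ) : cnt2_w W t ≤ W := by
  classical
  unfold cnt2_w
  exact Nat.findGreatest_le W

theorem cnt2_wd (W : ℕ) (hW : 1 ≤ W) (t : ℕ × ℕ × ℕ × ℕ) :
    (cnt2_w W t : ℤ) ^ 4 ∣ tA t ∧ (cnt2_w W t : ℤ) ^ 6 ∣ tB t := by
  classical
  unfold cnt2_w
  exact Nat.findGreatest_spec (P := fun w : ℕ => (w : ℤ) ^ 4 ∣ tA t ∧ (w : ℤ) ^ 6 ∣ tB t) hW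
    (by simp)

theorem cnt2_wmax (W : ℕ) (t : ℕ × ℕ × ℕ × ℕ)
    (h : ¬ ∃ w : ℕ, W < w ∧ (w : ℤ) ^ 4 ∣ tA t ∧ (w : ℤ) ^ 6 ∣ tB t) (w : ℕ)
    (h1 : (w : ℤ) ^ 4 ∣ tA t ∧ (w : ℤ) ^ 6 ∣ tB t) : w ≤ cnt2_w W t := by
  classical
  have hw : w ≤ W := by
    by_contra hcon
    push Not at hcon
    exact h ⟨w, hcon, h1⟩
  unfold cnt2_w
  exact Nat.le_findGreatest hw h1

/-- the reduced pair -/
noncomputable def cnt2_r (W : ℕ) (t : ℕ × ℕ × ℕ × ℕ) : ℤ × ℤ :=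
  (tA t / (cnt2_w W t : ℤ) ^ 4, tB t / (cnt2_w W t : ℤ) ^ 6)

theorem cnt2_r1 (W : ℕ) (hW : 1 ≤ W) (t : ℕ × ℕ × ℕ × ℕ) :
    tA t = (cnt2_r W t).1 * (cnt2_w W t : ℤ) ^ 4 ∧ tB t = (cnt2_r W t).2 * (cnt2_w W t : ℤ) ^ 6 := by
  obtain ⟨h1, h2⟩ := cnt2_wd W hW t
  exact ⟨(Int.ediv_mul_cancel h1).symm, (Int.ediv_mul_cancel h2).symm⟩

theorem cnt2_mem (hTRK : ST_TRK) (W C m : ℕ) (hW : 1 ≤ W) (t : ℕ × ℕ × ℕ × ℕ) (ht : t ∈ TT m)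
    (h1 : 4 * |tA t| ^ 3 ≤ (C : ℤ) * (m : ℤ) ^ 12) (h2 : 27 * tB t ^ 2 ≤ (C : ℤ) * (m : ℤ) ^ 12)
    (h3 : 4 * tA t ^ 3 + 27 * tB t ^ 2 ≠ 0)
    (h : ¬ ∃ w : ℕ, W < w ∧ (w : ℤ) ^ 4 ∣ tA t ∧ (w : ℤ) ^ 6 ∣ tB t) :
    cnt2_r W t ∈ NS ((C : ℝ) * (m : ℝ) ^ 12) := by
  obtain ⟨hA, hB⟩ := cnt2_r1 W hW t
  have hw1 := cnt2_w1 W hW t
  set w := cnt2_w W t with hw
  set A := (cnt2_r W t).1 with hAd
  set B := (cnt2_r W t).2 with hBd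
  have hwz : (1 : ℤ) ≤ w := by exact_mod_cast hw1
  refine ⟨?_, ?_, ?_, ?_⟩
  · intro h0
    apply h3
    rw [hA, hB]
    have : 4 * A ^ 3 + 27 * B ^ 2 = 0 := h0
    linear_combination ((w : ℤ) ^ 12) * this
  · rintro q hq ⟨hqa, hqb⟩
    have h4 : ((w * q : ℕ) : ℤ) ^ 4 ∣ tA t ∧ ((w * q : ℕ) : ℤ) ^ 6 ∣ tB t := by
      push_cast
      rw [mul_pow, mul_pow]
      constructor
      · rw [hA, mul_comm]
        exact mul_dvd_mul hqa (dvd_refl _)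
      · rw [hB, mul_comm]
        exact mul_dvd_mul hqb (dvd_refl _)
    have h5 := cnt2_wmax W t h (w * q) h4
    have h6 : w * 2 ≤ w * q := Nat.mul_le_mul_left _ hq.two_le
    have h7 : cnt2_w W t = w := rfl
    omega
  · have hle : max (4 * |A| ^ 3) (27 * B ^ 2) ≤ (C : ℤ) * (m : ℤ) ^ 12 := by
      apply max_le
      · refine le_trans ?_ h1
        rw [hA, abs_mul, mul_pow]
        have h8 : (1 : ℤ) ≤ |(w : ℤ) ^ 4| ^ 3 := by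
          apply one_le_pow₀
          rw [abs_pow, Nat.abs_cast]
          exact one_le_pow₀ hwz
        have h9 : 0 ≤ |A| ^ 3 := by positivity
        nlinarith
      · refine le_trans ?_ h2
        rw [hB, mul_pow]
        have h8 : (1 : ℤ) ≤ ((w : ℤ) ^ 6) ^ 2 := by
          apply one_le_pow₀
          exact one_le_pow₀ hwz
        have h9 : 0 ≤ B ^ 2 := by positivity
        nlinarith
    have : (((max (4 * |A| ^ 3) (27 * B ^ 2) : ℤ)) : ℝ) ≤ (((C : ℤ) * (m : ℤ) ^ 12 : ℤ) : ℝ) := by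
      exact_mod_cast hle
    push_cast at this ⊢
    exact this
  · exact hTRK m t ht A B w hA hB

open Classical in
theorem st_CNT2 (hBAD : ST_BAD) (hFIB : ST_FIB) (hRED : ST_RED) (hSZ : ST_SZ) (hTRK : ST_TRK) :
    ST_CNT2 := by
  obtain ⟨W, hW, m0, hg⟩ := cnt2_good hBAD hRED
  obtain ⟨C, hC, hs⟩ := hSZ
  refine ⟨1 / (54 * W), C, max m0 1, by positivity, hC, ?_⟩
  intro m hm
  have hm0 : m0 ≤ m := (le_max_left _ _).trans hm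
  have hm1 : 1 ≤ m := (le_max_right _ _).trans hm
  set G := (TT m).filter (fun t => ¬ Bad m t ∧
      ¬ ∃ w : ℕ, W < w ∧ (w : ℤ) ^ 4 ∣ tA t ∧ (w : ℤ) ^ 6 ∣ tB t) with hG
  have h1 := hg m hm0
  have h2 : (G.image (cnt2_r W) : Set (ℤ × ℤ)) ⊆ NS ((C : ℝ) * (m : ℝ) ^ 12) := by
    intro p hp
    rw [Finset.coe_image] at hp
    obtain ⟨t, ht, rfl⟩ := hp
    rw [Finset.mem_coe, hG, Finset.mem_filter] at ht
    obtain ⟨s1, s2, _, _, s5⟩ := hs m hm1 t ht.1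
    exact cnt2_mem hTRK W C m hW t ht.1 s1 s2 s5 ht.2.2
  have h3 : (G.image (cnt2_r W)).card ≤ (NS ((C : ℝ) * (m : ℝ) ^ 12)).ncard := by
    rw [← Set.ncard_coe_finset]
    exact Set.ncard_le_ncard h2 (cnt2_fin _)
  have h4 : G.card ≤ (27 * W) * (G.image (cnt2_r W)).card := by
    apply Finset.card_le_mul_card_image
    intro p _
    calc (G.filter (fun t => cnt2_r W t = p)).card
        ≤ ((Finset.Icc 1 W).biUnion (fun w => (TT m).filter (fun t => ¬ Bad m t ∧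
          tA t = p.1 * (w : ℤ) ^ 4 ∧ tB t = p.2 * (w : ℤ) ^ 6))).card := by
          apply Finset.card_le_card
          intro t ht
          rw [Finset.mem_filter, hG, Finset.mem_filter] at ht
          rw [Finset.mem_biUnion]
          refine ⟨cnt2_w W t, Finset.mem_Icc.2 ⟨cnt2_w1 W hW t, cnt2_wle W t⟩, ?_⟩
          rw [Finset.mem_filter]
          have h5 := cnt2_r1 W hW t
          rw [ht.2] at h5
          exact ⟨ht.1.1, ht.1.2.1, h5.1, h5.2⟩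
      _ ≤ ∑ w ∈ Finset.Icc 1 W, ((TT m).filter (fun t => ¬ Bad m t ∧
          tA t = p.1 * (w : ℤ) ^ 4 ∧ tB t = p.2 * (w : ℤ) ^ 6)).card := Finset.card_biUnion_le
      _ ≤ ∑ w ∈ Finset.Icc 1 W, 27 := Finset.sum_le_sum (fun w _ => hFIB m _ _ hm1)
      _ = 27 * W := by simp [mul_comm]
  have h5 : (G.card : ℝ) ≤ (27 * W) * ((NS ((C : ℝ) * (m : ℝ) ^ 12)).ncard : ℝ) := by
    have : G.card ≤ (27 * W) * (NS ((C : ℝ) * (m : ℝ) ^ 12)).ncard :=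
      h4.trans (Nat.mul_le_mul_left _ h3)
    exact_mod_cast this
  have hWr : (0 : ℝ) < W := by exact_mod_cast hW
  rw [div_mul_eq_mul_div, one_mul, div_le_iff₀ (by positivity)]
  linarith

end Pool.Helper16.NR
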