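import Mathlib
import Pool.Agent.Helper16.NR.Stmts2
import Pool.Agent.Helper16.NR.CNT2

/-! Assembly: the lower bound for all heights. -/

set_option autoImplicit false

namespace Pool.Helper16.NR

theorem fin2_mono (a b : ℝ) (h : a ≤ b) : NS a ⊆ NS b := by
  rintro p ⟨h1, h2, h3, h4⟩
  exact ⟨h1, h2, h3.trans h, h4⟩

theorem st_FIN2 (h : ST_CNT2) : ST_FIN2 := by
  obtain ⟨c, C, m0, hc, hC, hm⟩ := h
  have hC0 : (0 : ℝ) < C := by exact_mod_cast hC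
  refine ⟨c / 2 ^ 8 / (C : ℝ) ^ ((2 : ℝ) / 3), by positivity, C * ((m0 : ℝ) + 2) ^ 12, ?_⟩
  intro H hH
  have hH0 : 0 < H := lt_of_lt_of_le (by positivity) hH
  set x : ℝ := (H / C) ^ ((1 : ℝ) / 12) with hx
  have hHC : 0 < H / C := by positivity
  have hx0 : 0 < x := Real.rpow_pos_of_pos hHC _
  have hx12 : x ^ 12 = H / C := by
    rw [hx, ← Real.rpow_natCast, ← Real.rpow_mul hHC.le]
    norm_num
  have hx8 : x ^ 8 = H ^ ((2 : ℝ) / 3) / (C : ℝ) ^ ((2 : ℝ) / 3) := by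
    rw [hx, ← Real.rpow_natCast, ← Real.rpow_mul hHC.le, ← Real.div_rpow hH0.le hC0.le]
    norm_num
  have hxm : (m0 : ℝ) + 2 ≤ x := by
    by_contra hcon
    push Not at hcon
    have h1 : x ^ 12 < ((m0 : ℝ) + 2) ^ 12 := pow_lt_pow_left₀ hcon hx0.le (by norm_num)
    rw [hx12, div_lt_iff₀ hC0] at h1
    linarith
  have hfl := Nat.floor_le hx0.le
  have hfl2 := Nat.lt_floor_add_one x
  set m := ⌊x⌋₊ with hmd
  have hm0r : (0 : ℝ) ≤ m0 := Nat.cast_nonneg m0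
  have hmm : m0 ≤ m := by
    apply Nat.le_floor
    linarith
  have h2 := hm m hmm
  have h3 : (C : ℝ) * (m : ℝ) ^ 12 ≤ H := by
    have h4 : (m : ℝ) ^ 12 ≤ x ^ 12 := pow_le_pow_left₀ (Nat.cast_nonneg m) hfl 12
    rw [hx12] at h4
    calc (C : ℝ) * (m : ℝ) ^ 12 ≤ C * (H / C) := mul_le_mul_of_nonneg_left h4 hC0.le
      _ = H := by field_simp
  have h4 : ((NS ((C : ℝ) * (m : ℝ) ^ 12)).ncard : ℝ) ≤ ((NS H).ncard : ℝ) := by
    exact_mod_cast Set.ncard_le_ncard (fin2_mono _ _ h3) (cnt2_fin H)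
  have h5 : x / 2 ≤ (m : ℝ) := by linarith
  have h6 : (x / 2) ^ 8 ≤ (m : ℝ) ^ 8 := pow_le_pow_left₀ (by positivity) h5 8
  calc c / 2 ^ 8 / (C : ℝ) ^ ((2 : ℝ) / 3) * H ^ ((2 : ℝ) / 3) = c * (x / 2) ^ 8 := by
        rw [div_pow, hx8]
        field_simp
    _ ≤ c * (m : ℝ) ^ 8 := mul_le_mul_of_nonneg_left h6 hc.le
    _ ≤ _ := h2.trans h4

end Pool.Helper16.NR
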