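import Mathlib
import Pool.Agent.Helper16.NR.Stmts

/-! Statements of the modules for `N_3(H) ≥ H ^ (7/12 - ε)`. -/

set_option autoImplicit false

namespace Pool.Helper16.NR

/-- the pairs counted by `N_3(H)` -/
def NS3 (H : ℝ) : Set (ℤ × ℤ) :=
  {p | 4 * p.1 ^ 3 + 27 * p.2 ^ 2 ≠ 0 ∧
    (∀ q : ℕ, q.Prime → ¬ ((q : ℤ) ^ 4 ∣ p.1 ∧ (q : ℤ) ^ 6 ∣ p.2)) ∧
    (((max (4 * |p.1| ^ 3) (27 * p.2 ^ 2) : ℤ) : ℝ) ≤ H) ∧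
    (3 : Cardinal) ≤ Module.rank ℤ ((cur p.1 p.2).toAffine).Point}

/-- parameters: `(i, j, l, s, t)` -/
def T3 (m : ℕ) : Finset (ℕ × ℕ × ℕ × ℕ × ℕ) :=
  (Finset.range m) ×ˢ (Finset.range m) ×ˢ (Finset.range m) ×ˢ (Finset.range (m ^ 2)) ×ˢ
    (Finset.range (m ^ 2))

/-- `a` -/
def ca (t : ℕ × ℕ × ℕ × ℕ × ℕ) : ℤ := 385 * t.1 + 141

/-- `b` -/
def cb (t : ℕ × ℕ × ℕ × ℕ × ℕ) : ℤ := 385 * t.2.1 + 155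

/-- `k` -/
def ck (t : ℕ × ℕ × ℕ × ℕ × ℕ) : ℤ := 385 * t.2.2.1 + 127

/-- abscissa `x₁` -/
def c1 (t : ℕ × ℕ × ℕ × ℕ × ℕ) : ℤ := 385 * t.2.2.2.1 + 231

/-- abscissa `x₃` -/
def c3 (t : ℕ × ℕ × ℕ × ℕ × ℕ) : ℤ := 385 * t.2.2.2.2 + 23

/-- slope -/
def cl (t : ℕ × ℕ × ℕ × ℕ × ℕ) : ℤ := ca t + cb t - ck t

/-- abscissa `x₅` -/
def c5 (t : ℕ × ℕ × ℕ × ℕ × ℕ) : ℤ := cl t ^ 2 - c1 t - c3 t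

/-- intercept -/
def cm (t : ℕ × ℕ × ℕ × ℕ × ℕ) : ℤ :=
  -(ca t * c3 t) - cb t * c1 t + ck t * c5 t - 4 * ck t * ca t * cb t

/-- abscissa `x₂` -/
def c2 (t : ℕ × ℕ × ℕ × ℕ × ℕ) : ℤ := c1 t + 4 * ck t * ca t

/-- abscissa `x₄` -/
def c4 (t : ℕ × ℕ × ℕ × ℕ × ℕ) : ℤ := c3 t + 4 * ck t * cb t

/-- abscissa `x₆` -/
def c6 (t : ℕ × ℕ × ℕ × ℕ × ℕ) : ℤ := c5 t - 4 * ca t * cb t

/-- coefficient `A` -/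
def A3 (t : ℕ × ℕ × ℕ × ℕ × ℕ) : ℤ :=
  c1 t * c3 t + c1 t * c5 t + c3 t * c5 t + 2 * cl t * cm t

/-- coefficient `B` -/
def B3 (t : ℕ × ℕ × ℕ × ℕ × ℕ) : ℤ := cm t ^ 2 - c1 t * c3 t * c5 t

/-- ID3: the six points and the identity behind the divisor argument. -/
def ST_ID3 : Prop := ∀ t : ℕ × ℕ × ℕ × ℕ × ℕ,
  (∀ x : ℤ, x ^ 3 + A3 t * x + B3 t =
    (x - c1 t) * (x - c3 t) * (x - c5 t) + (cl t * x + cm t) ^ 2) ∧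
  (∀ x : ℤ, cl t * x + cm t = ca t * (x - c3 t) + cb t * (x - c1 t) - ck t * (x - c5 t) -
    4 * ck t * ca t * cb t) ∧
  (ca t * (c2 t - c3 t) + ck t * (c2 t - c5 t)) ^ 2 = c2 t ^ 3 + A3 t * c2 t + B3 t ∧
  (cb t * (c4 t - c1 t) + ck t * (c4 t - c5 t)) ^ 2 = c4 t ^ 3 + A3 t * c4 t + B3 t ∧
  (ca t * (c6 t - c3 t) - cb t * (c6 t - c1 t)) ^ 2 = c6 t ^ 3 + A3 t * c6 t + B3 t ∧
  (∀ x y : ℤ, y ^ 2 = x ^ 3 + A3 t * x + B3 t →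
    (2 * ca t ^ 2 * (x - c3 t) + 2 * ca t * (cb t * (x - c1 t) - ck t * (x - c5 t) -
        4 * ck t * ca t * cb t) + (x - c1 t) * (x - c5 t) - 2 * ca t * y) *
      (2 * ca t ^ 2 * (x - c3 t) + 2 * ca t * (cb t * (x - c1 t) - ck t * (x - c5 t) -
        4 * ck t * ca t * cb t) + (x - c1 t) * (x - c5 t) + 2 * ca t * y) =
      (x - c1 t) * (x - c5 t) * (x - c2 t) * (x - c6 t))

/-- a further integral point of small abscissa -/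
def Ext3 (m : ℕ) (t : ℕ × ℕ × ℕ × ℕ × ℕ) (x : ℤ) : Prop :=
  |x| ≤ 2000000 * (m : ℤ) ^ 2 ∧ x ≠ c1 t ∧ x ≠ c2 t ∧ x ≠ c3 t ∧ x ≠ c4 t ∧ x ≠ c5 t ∧ x ≠ c6 t ∧
    ∃ y : ℤ, y ^ 2 = x ^ 3 + A3 t * x + B3 t

/-- number of further points -/
noncomputable def ne3 (m : ℕ) (t : ℕ × ℕ × ℕ × ℕ × ℕ) : ℕ := {x : ℤ | Ext3 m t x}.ncard

/-- BAD3: few further points on average. -/
def ST_BAD3 : Prop := ∀ ε : ℝ, 0 < ε → ∃ C : ℝ, ∀ m : ℕ, 1 ≤ m →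
  ∑ t ∈ T3 m, (ne3 m t : ℝ) ≤ C * (m : ℝ) ^ (7 + ε)

open Classical in
/-- FIB3: a curve comes from few tuples with few further points. -/
def ST_FIB3 : Prop := ∀ ε : ℝ, 0 < ε → ∃ C : ℝ, ∀ (m K : ℕ) (A B : ℤ), 1 ≤ m →
  (((T3 m).filter (fun t => ne3 m t ≤ K ∧ A3 t = A ∧ B3 t = B)).card : ℝ) ≤
    C * ((K : ℝ) + 6) ^ 4 * (m : ℝ) ^ ε

/-- SZ3: sizes. -/
def ST_SZ3 : Prop := ∃ C : ℕ, 1 ≤ C ∧ ∀ m : ℕ, 1 ≤ m → ∀ t ∈ T3 m,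
  4 * |A3 t| ^ 3 ≤ (C : ℤ) * (m : ℤ) ^ 12 ∧ 27 * B3 t ^ 2 ≤ (C : ℤ) * (m : ℤ) ^ 12 ∧
  |B3 t| ≤ (C : ℤ) * (m : ℤ) ^ 6 ∧ B3 t ≠ 0 ∧ 4 * A3 t ^ 3 + 27 * B3 t ^ 2 ≠ 0

/-- QS: quadratic congruences modulo a fourth power in an interval. -/
def ST_QS : Prop := ∀ (w L : ℕ) (b c : ℤ), 1 ≤ w →
  (((Finset.Icc (0 : ℤ) L).filter (fun z => (w : ℤ) ^ 4 ∣ z ^ 2 + b * z + c)).card : ℝ) ≤
    ((w ^ 4).divisors.card : ℝ) * ((L : ℝ) / (w : ℝ) ^ 2 + 1)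

/-- WSV3: tuples for which `w ^ 4` divides `A`. -/
def ST_WSV3 : Prop := ∀ (m w : ℕ), 1 ≤ m → 1 ≤ w →
  (((T3 m).filter (fun t => (w : ℤ) ^ 4 ∣ A3 t)).card : ℝ) ≤
    (m : ℝ) ^ 5 * (((w ^ 4).divisors.card : ℝ) * (500 * (m : ℝ) ^ 2 / (w : ℝ) ^ 2 + 1))

open Classical in
/-- RED3: most tuples reduce by a bounded factor. -/
def ST_RED3 : Prop := ∃ W : ℕ, 1 ≤ W ∧ ∃ m0 : ℕ, ∀ m : ℕ, m0 ≤ m →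
  (((T3 m).filter (fun t => ∃ w : ℕ, W < w ∧ (w : ℤ) ^ 4 ∣ A3 t ∧ (w : ℤ) ^ 6 ∣ B3 t)).card : ℝ) ≤
    (m : ℝ) ^ 7 / 4

/-- reduction of a rational number modulo `p` -/
def Rd (p : ℕ) [Fact p.Prime] (x : ℚ) (ξ : ZMod p) : Prop :=
  ∃ m w : ℤ, (w : ZMod p) ≠ 0 ∧ x = (m : ℚ) / (w : ℚ) ∧ ξ = (m : ZMod p) / (w : ZMod p)

/-- reduction of a point -/
def RP (p : ℕ) [Fact p.Prime] (A B : ℤ) (P : ((cur A B).toAffine).Point) (ξ η : ZMod p) : Prop :=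
  ∃ (x y : ℚ) (h : ((cur A B).toAffine).Nonsingular x y),
    P = WeierstrassCurve.Affine.Point.some x y h ∧ Rd p x ξ ∧ Rd p y η

/-- RDO: arithmetic of reductions. -/
def ST_RDO : Prop := ∀ (p : ℕ) [Fact p.Prime] (x y : ℚ) (ξ η : ZMod p), Rd p x ξ → Rd p y η →
  Rd p (x + y) (ξ + η) ∧ Rd p (x - y) (ξ - η) ∧ Rd p (x * y) (ξ * η) ∧
  (η ≠ 0 → y ≠ 0 ∧ Rd p (x / y) (ξ / η)) ∧ (Rd p x η → ξ = η)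

/-- RADD: reduction of a sum. -/
def ST_RADD : Prop := ∀ (p : ℕ) [Fact p.Prime] (A B : ℤ) (P Q : ((cur A B).toAffine).Point)
  (ξ1 η1 ξ2 η2 L : ZMod p), RP p A B P ξ1 η1 → RP p A B Q ξ2 η2 → ξ1 ≠ ξ2 →
  L * (ξ1 - ξ2) = η1 - η2 →
  RP p A B (P + Q) (L ^ 2 - ξ1 - ξ2) (-(L * (L ^ 2 - ξ1 - ξ2 - ξ1) + η1))

/-- RC: a point which is not divisible by two. -/
def ST_RC : Prop := ∀ (p : ℕ) [Fact p.Prime], p ≠ 2 → ∀ (A B : ℤ) (e : ZMod p),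
  (4 * (A : ZMod p) ^ 3 + 27 * (B : ZMod p) ^ 2 ≠ 0) →
  e ^ 3 + (A : ZMod p) * e + (B : ZMod p) = 0 →
  ∀ (P : ((cur A B).toAffine).Point) (ξ η : ZMod p), RP p A B P ξ η → ¬ IsSquare (ξ - e) →
  ∀ Q : ((cur A B).toAffine).Point, P ≠ Q + Q

/-- RK3M: three elements of an abelian group. -/
def ST_RK3M : Prop := ∀ (M : Type) [AddCommGroup M] (P Q R : M), (∀ S : M, S + S = 0 → S = 0) →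
  (∀ S : M, P ≠ S + S) → (∀ S : M, Q ≠ S + S) → (∀ S : M, R ≠ S + S) →
  (∀ S : M, P + Q ≠ S + S) → (∀ S : M, P + R ≠ S + S) → (∀ S : M, Q + R ≠ S + S) →
  (∀ S : M, P + Q + R ≠ S + S) → (3 : Cardinal) ≤ Module.rank ℤ M

/-- PT3: the three points on the reduced curve and their reductions. -/
def ST_PT3 : Prop := ∀ [Fact (Nat.Prime 5)] [Fact (Nat.Prime 7)] (m : ℕ), ∀ t ∈ T3 m,
  ∀ A B w : ℤ, A3 t = A * w ^ 4 → B3 t = B * w ^ 6 →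
  (w : ZMod 5) ≠ 0 ∧ (w : ZMod 7) ≠ 0 ∧ (w : ZMod 11) ≠ 0 ∧
  (A : ZMod 5) * w ^ 4 = 4 ∧ (B : ZMod 5) = 0 ∧ (A : ZMod 7) * w ^ 4 = 5 ∧ (B : ZMod 7) = 0 ∧
  (A : ZMod 11) * w ^ 4 = 2 ∧ (B : ZMod 11) * w ^ 6 = 9 ∧
  ∃ P Q R : ((cur A B).toAffine).Point,
    RP 5 A B P (1 / (w : ZMod 5) ^ 2) 0 ∧ RP 5 A B Q (3 / (w : ZMod 5) ^ 2) (3 / (w : ZMod 5) ^ 3) ∧
    RP 5 A B R (4 / (w : ZMod 5) ^ 2) 0 ∧ RP 7 A B P 0 0 ∧ RP 7 A B R (4 / (w : ZMod 7) ^ 2) 0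

/-- TRK3: the rank of the reduced curve is at least three. -/
def ST_TRK3 : Prop := ∀ (m : ℕ), ∀ t ∈ T3 m, ∀ A B w : ℤ, A3 t = A * w ^ 4 → B3 t = B * w ^ 6 →
  (3 : Cardinal) ≤ Module.rank ℤ ((cur A B).toAffine).Point

/-- CNT3: the count for the special heights. -/
def ST_CNT3 : Prop := ∃ C : ℕ, 1 ≤ C ∧ ∀ ε : ℝ, 0 < ε → ∃ m0 : ℕ, ∀ m : ℕ, m0 ≤ m →
  (m : ℝ) ^ (7 - ε) ≤ ((NS3 ((C : ℝ) * (m : ℝ) ^ 12)).ncard : ℝ)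

/-- FIN3: the theorem. -/
def ST_FIN3 : Prop := ∀ ε : ℝ, 0 < ε → ∃ H0 : ℝ, ∀ H : ℝ, H0 ≤ H →
  H ^ ((7 : ℝ) / 12 - ε) ≤ ((NS3 H).ncard : ℝ)

end Pool.Helper16.NR
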